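import Pool.Agent.FS.CayleyMRF.Defs

set_option autoImplicit false

/-! Cylinder events, the Markov factorisation and finite balls. -/

namespace Pool.Agent.FS.CayleyMRF

open MeasureTheory ProbabilityTheory Set

theorem split_real {Ω β : Type} [MeasurableSpace Ω] (μ : Measure Ω) [IsFiniteMeasure μ] [Fintype β]
    (f : Ω → β) (hf : ∀ b, MeasurableSet {x | f x = b}) {S : Set Ω} (hS : MeasurableSet S) :
    μ.real S = ∑ b, μ.real (S ∩ {x | f x = b}) := by
  rw [← measureReal_iUnion_fintype]
  · congr 1
    ext x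
    simp
  · intro a b hab
    refine Set.disjoint_left.2 ?_
    rintro x ⟨-, h1⟩ ⟨-, h2⟩
    exact hab (h1.symm.trans h2)
  · exact fun b => hS.inter (hf b)

variable {V : Type} {q : ℕ}

theorem meas_coord {Δ : Set V} {w : V} (hw : w ∈ Δ) (a : Fin q) :
    MeasurableSet[cylinderEvents Δ] {x : V → Fin q | x w = a} :=
  measurable_cylinderEvent_apply (X := fun _ => Fin q) hw (measurableSet_singleton a)

theorem meas_pat [Countable V] {Δ Γ : Set V} (h : Γ ⊆ Δ) (y : Γ → Fin q) :
    MeasurableSet[cylinderEvents Δ] {x : V → Fin q | (fun w : Γ => x w) = y} := by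
  have : {x : V → Fin q | (fun w : Γ => x w) = y} = ⋂ w : Γ, {x | x w = y w} := by
    ext x
    simp [funext_iff]
  rw [this]
  exact MeasurableSet.iInter (fun w => meas_coord (h w.2) _)

theorem to_pi {Δ : Set V} {S : Set (V → Fin q)}
    (h : MeasurableSet[cylinderEvents Δ] S) : MeasurableSet S :=
  cylinderEvents_le_pi (X := fun _ => Fin q) S h

theorem cyl_congr {β : Type} [MeasurableSpace β] {Δ : Set V}
    {S : Set (V → β)} (hS : MeasurableSet[cylinderEvents Δ] S)
    {x y : V → β} (h : ∀ u ∈ Δ, x u = y u) : x ∈ S ↔ y ∈ S := by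
  let m : MeasurableSpace (V → β) :=
    { MeasurableSet' := fun S => x ∈ S ↔ y ∈ S
      measurableSet_empty := Iff.rfl
      measurableSet_compl := fun _ h => not_congr h
      measurableSet_iUnion := fun f hf => by simp only [mem_iUnion, hf] }
  have hm : cylinderEvents (X := fun _ => β) Δ ≤ m := iSup₂_le fun u hu => by
    rintro _ ⟨T, -, rfl⟩
    show x u ∈ T ↔ y u ∈ T
    rw [h u hu]
  exact hm S hS

theorem markov_factor [Countable V] {G : SimpleGraph V} {μ : Measure (V → Fin q)} [IsProbabilityMeasure μ]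
    (hM : Markov G μ) (A : Finset V) (R : Set (V → Fin q))
    (hR : ∀ x y : V → Fin q, (∀ v ∈ A, x v = y v) → x ∈ R → y ∈ R)
    (z : bdry G A → Fin q) : ∃ c : ℝ, ∀ L : Set (V → Fin q),
      MeasurableSet[cylinderEvents (↑A : Set V)ᶜ] L →
      (∀ x ∈ L, (fun w : bdry G A => x w) = z) → μ.real (L ∩ R) = c * μ.real L := by
  classical
  choose g hg using hM A
  refine ⟨∑ a : A → Fin q, if ∃ x ∈ R, (fun v : A => x v) = a then g a z else 0, ?_⟩
  intro L hL hz
  have hL' : MeasurableSet L := to_pi hL
  have hpat : ∀ a : A → Fin q, MeasurableSet {x : V → Fin q | (fun v : A => x v) = a} :=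
    fun a => to_pi (meas_pat (Δ := univ) (Γ := (↑A : Set V)) (subset_univ _) a)
  have hRU : R = ⋃ a ∈ {a : A → Fin q | ∃ x ∈ R, (fun v : A => x v) = a},
      {x | (fun v : A => x v) = a} := by
    ext x
    simp only [mem_iUnion, mem_ofPred_eq, exists_prop]
    constructor
    · intro hx
      exact ⟨_, ⟨x, hx, rfl⟩, rfl⟩
    · rintro ⟨a, ⟨y, hy, rfl⟩, h⟩
      exact hR y x (fun v hv => (congrFun h ⟨v, hv⟩).symm) hy
  have hRm : MeasurableSet R := by
    rw [hRU]
    exact MeasurableSet.biUnion (to_countable _) (fun a _ => hpat a)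
  rw [split_real μ (fun x => fun v : A => x v) hpat (hL'.inter hRm), Finset.sum_mul]
  refine Finset.sum_congr rfl (fun a _ => ?_)
  split_ifs with ha
  · obtain ⟨y, hy, rfl⟩ := ha
    have e1 : L ∩ R ∩ {x | (fun v : A => x v) = fun v : A => y v} =
        L ∩ {x | ∀ v : A, x v = y v} := by
      ext x
      simp only [mem_inter_iff, mem_ofPred_eq, funext_iff]
      constructor
      · rintro ⟨⟨h1, -⟩, h2⟩
        exact ⟨h1, h2⟩
      · rintro ⟨h1, h2⟩
        exact ⟨⟨h1, hR y x (fun v hv => (h2 ⟨v, hv⟩).symm) hy⟩, h2⟩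
    have hm : MeasurableSet {x : V → Fin q | ∀ v : A, x v = y v} := by
      have := hpat (fun v : A => y v)
      simpa only [funext_iff] using this
    have e2 := setIntegral_condExp (μ := μ) (cylinderEvents_le_pi (X := fun _ => Fin q))
      ((integrable_const (1 : ℝ)).indicator hm) hL
    rw [setIntegral_congr_ae hL' ((hg (fun v : A => y v)).mono (fun x hx _ => hx)),
      setIntegral_congr_fun hL' (g := fun _ => g (fun v : A => y v) z)
        (fun x hx => by simp only [hz x hx]),
      setIntegral_const, setIntegral_indicator hm, setIntegral_const] at e2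
    rw [e1]
    simp only [smul_eq_mul, mul_one] at e2
    rw [← e2, mul_comm]
  · have : L ∩ R ∩ {x | (fun v : A => x v) = a} = ∅ := by
      rw [eq_empty_iff_forall_notMem]
      rintro x ⟨⟨-, h1⟩, h2⟩
      exact ha ⟨x, h1, h2⟩
    rw [this]
    simp

theorem ball_finite {G : SimpleGraph V} (hfin : ∀ v, (G.neighborSet v).Finite) (n : ℕ) :
    ∀ p : V, {w | G.edist p w ≤ n}.Finite := by
  induction n with
  | zero =>
    intro p
    refine (finite_singleton p).subset fun w hw => ?_
    simpa using hw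
  | succ n ih =>
    intro p
    refine ((finite_singleton p).union ((hfin p).biUnion fun z _ => ih z)).subset fun w hw => ?_
    have hw' : G.edist p w ≤ ((n + 1 : ℕ) : ℕ∞) := hw
    obtain ⟨c, hc⟩ := SimpleGraph.exists_walk_of_edist_ne_top
      (ne_top_of_le_ne_top (ENat.natCast_ne_top _) hw')
    cases c with
    | nil => exact Or.inl rfl
    | cons h c =>
      refine Or.inr (mem_biUnion h ?_)
      rw [← hc, SimpleGraph.Walk.length_cons, Nat.cast_le] at hw'
      exact (SimpleGraph.edist_le c).trans (Nat.cast_le.2 (by omega))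

theorem bdry_finite {G : SimpleGraph V} (hfin : ∀ v, (G.neighborSet v).Finite) (A : Finset V) :
    (bdry G A).Finite :=
  (A.finite_toSet.biUnion fun v _ => hfin v).subset fun _ ⟨_, _, hv, h⟩ => mem_biUnion hv h

end Pool.Agent.FS.CayleyMRF
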