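import Mathlib

set_option autoImplicit false

/-! Random fields with `q` colours on the vertices of a graph, given by their law. -/

namespace Pool.Agent.FS.CayleyMRF

open MeasureTheory ProbabilityTheory

/-- The vertices outside `A` adjacent to a vertex of `A`. -/
def bdry {V : Type} (G : SimpleGraph V) (A : Finset V) : Set V :=
  {w | w ∉ A ∧ ∃ v ∈ A, G.Adj v w}

/-- The law is invariant under all left translations of the group. -/
def Invariant {Γ : Type} [Group Γ] {q : ℕ} (μ : Measure (Γ → Fin q)) : Prop :=
  ∀ t : Γ, μ.map (fun x g => x (t * g)) = μ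

/-- Coordinates on sets at graph distance at least `k` are independent, for some `k`. -/
def FinDep {V : Type} (G : SimpleGraph V) {q : ℕ} (μ : Measure (V → Fin q)) : Prop :=
  ∃ k : ℕ, ∀ A B : Set V, (∀ u ∈ A, ∀ v ∈ B, (k : ℕ∞) ≤ G.edist u v) →
    Indep (cylinderEvents A) (cylinderEvents B) μ

/-- Almost every configuration is a proper colouring. -/
def Proper {V : Type} (G : SimpleGraph V) {q : ℕ} (μ : Measure (V → Fin q)) : Prop :=
  ∀ᵐ x ∂μ, ∀ u v, G.Adj u v → x u ≠ x v

/-- For each finite `A` and each pattern `a` on `A`, the conditional probability of seeing `a` on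
`A` given all coordinates outside `A` is almost surely a function of the coordinates on the
boundary of `A`. -/
def Markov {V : Type} (G : SimpleGraph V) {q : ℕ} (μ : Measure (V → Fin q)) : Prop :=
  ∀ (A : Finset V) (a : A → Fin q), ∃ g : (bdry G A → Fin q) → ℝ,
    μ[Set.indicator {x | ∀ v : A, x v = a v} (fun _ => (1 : ℝ)) |
        cylinderEvents (↑A : Set V)ᶜ] =ᵐ[μ] fun x => g (fun w => x w)

end Pool.Agent.FS.CayleyMRF
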