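import Pool.Agent.FS.CayleyMRF.Basic
import Pool.Agent.Lib.MP_83a7f3_pr.Trace

set_option autoImplicit false

/-! The process along a proper bi-infinite path has bounded Hankel rank. -/

namespace Pool.Agent.FS.CayleyMRF

open MeasureTheory ProbabilityTheory Set
open Pool.Agent.Lib.MP_83a7f3_pr (trace_obstruction sh sh_apply)

variable {V : Type} {q : ℕ}

/-- The event that the word `w` is read along the path `p`, starting at time `s`. -/
def ev (p : ℤ → V) : ℤ → List (Fin q) → Set (V → Fin q)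
  | _, [] => univ
  | s, a :: w => {x | x (p s) = a} ∩ ev p (s + 1) w

theorem ev_append (p : ℤ → V) (u v : List (Fin q)) :
    ∀ s : ℤ, ev p s (u ++ v) = ev p s u ∩ ev p (s + u.length) v := by
  induction u with
  | nil => intro s; simp [ev]
  | cons a u ih =>
    intro s
    simp only [List.cons_append, ev, ih, List.length_cons, inter_assoc]
    congr 3
    push_cast
    ring

theorem meas_ev (p : ℤ → V) {Δ : Set V} (w : List (Fin q)) :
    ∀ s : ℤ, (∀ t : ℤ, s ≤ t → t < s + w.length → p t ∈ Δ) →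
      MeasurableSet[cylinderEvents Δ] (ev p s w) := by
  induction w with
  | nil => intro s _; exact MeasurableSet.univ
  | cons a w ih =>
    intro s h
    refine MeasurableSet.inter (meas_coord (h s le_rfl ?_) a) (ih (s + 1) (fun t h1 h2 => h t ?_ ?_))
    · simp
    · omega
    · simp only [List.length_cons]; push_cast; omega

theorem meas_ev' (p : ℤ → V) (w : List (Fin q)) (s : ℤ) : MeasurableSet (ev p s w) :=
  to_pi (meas_ev p (Δ := univ) w s (fun _ _ _ => mem_univ _))

theorem ev_congr (p : ℤ → V) (w : List (Fin q)) (x y : V → Fin q) :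
    ∀ s : ℤ, (∀ t : ℤ, s ≤ t → t < s + w.length → x (p t) = y (p t)) →
      x ∈ ev p s w → y ∈ ev p s w := by
  induction w with
  | nil => intro s _ _; trivial
  | cons a w ih =>
    intro s h hx
    refine ⟨?_, ih (s + 1) (fun t h1 h2 => h t ?_ ?_) hx.2⟩
    · have := h s le_rfl (by simp)
      exact this.symm.trans hx.1
    · omega
    · simp only [List.length_cons]; push_cast; omega

theorem ev_shift (p : ℤ → V) (f : V → V) (t : ℤ) (hf : ∀ s, f (p s) = p (s + t))
    (w : List (Fin q)) :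
    ∀ s : ℤ, (fun (x : V → Fin q) v => x (f v)) ⁻¹' ev p s w = ev p (s + t) w := by
  induction w with
  | nil => intro s; simp [ev]
  | cons a w ih =>
    intro s
    simp only [ev, preimage_inter, ih, preimage_ofPred_eq, hf]
    congr 2
    ring

theorem sum_first {μ : Measure (V → Fin q)} [IsFiniteMeasure μ] (p : ℤ → V)
    {S : Set (V → Fin q)} (hS : MeasurableSet S) (s : ℤ) (v : List (Fin q)) :
    ∑ a, μ.real (S ∩ ev p s (a :: v)) = μ.real (S ∩ ev p (s + 1) v) := by
  rw [split_real μ (fun x => x (p s))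
    (fun b => to_pi (meas_coord (Δ := univ) (mem_univ _) b)) (hS.inter (meas_ev' p v (s + 1)))]
  refine Finset.sum_congr rfl (fun a _ => ?_)
  congr 1
  simp only [ev]
  ext x
  simp only [mem_inter_iff, mem_ofPred_eq]
  tauto

theorem rank_bound [Countable V] {G : SimpleGraph V} (hfin : ∀ v, (G.neighborSet v).Finite)
    {μ : Measure (V → Fin q)} [IsProbabilityMeasure μ] (hM : Markov G μ) (p : ℤ → V)
    (hsh : ∀ (w : List (Fin q)) (s : ℤ), μ.real (ev p s w) = μ.real (ev p 0 w))
    (hinj : Function.Injective p)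
    (hsep : ∀ R : ℕ, ∃ T : ℕ, ∀ a b : ℤ, a + T ≤ b → (R : ℕ∞) ≤ G.edist (p a) (p b)) (k : ℕ)
    (hk : ∀ A B : Set V, (∀ u ∈ A, ∀ v ∈ B, (k : ℕ∞) ≤ G.edist u v) →
      Indep (cylinderEvents A) (cylinderEvents B) μ) :
    ∃ D : ℕ, ∀ (u : Fin (D + 1) → List (Fin q)) (b : ℕ), ∃ c : Fin (D + 1) → ℝ, c ≠ 0 ∧
      ∀ v : List (Fin q), v.length ≤ b → ∑ j, c j * μ.real (ev p 0 (u j ++ v)) = 0 := by
  classical
  obtain ⟨T, hT⟩ := hsep (2 * k + 2)
  let N0 : Set V := {w | ∃ s : ℤ, s < 0 ∧ ∃ t : ℤ, 0 ≤ t ∧ G.edist (p s) w ≤ k ∧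
    G.edist (p t) w ≤ (k + 1 : ℕ)}
  have hN0 : N0.Finite := by
    refine ((finite_Ico (0 : ℤ) T).biUnion fun t _ => ball_finite hfin (k + 1) (p t)).subset ?_
    rintro w ⟨s, hs, t, ht, h1, h2⟩
    refine mem_biUnion (x := t) ⟨ht, ?_⟩ h2
    by_contra hc
    have h3 := (hT s t (by omega)).trans (G.edist_triangle (v := w))
    rw [G.edist_comm (u := w)] at h3
    have h4 := h3.trans (add_le_add h1 h2)
    norm_cast at h4
    omega
  have := hN0.fintype
  have hq : Nonempty (Fin q) := by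
    obtain ⟨x⟩ := nonempty_of_isProbabilityMeasure μ
    exact ⟨x (p 0)⟩
  refine ⟨Fintype.card (N0 → Fin q), fun u b => ?_⟩
  have hA0 : {w | (∃ t ∈ Ico (0 : ℤ) b, G.edist (p t) w ≤ k) ∧ ∀ s : ℤ, s < 0 → w ≠ p s}.Finite :=
    ((finite_Ico (0 : ℤ) b).biUnion fun t _ => ball_finite hfin k (p t)).subset
      fun w ⟨⟨t, ht, h⟩, _⟩ => mem_biUnion ht h
  let A : Finset V := hA0.toFinset
  have hA : ∀ w, w ∈ A ↔ (∃ t ∈ Ico (0 : ℤ) b, G.edist (p t) w ≤ k) ∧
      ∀ s : ℤ, s < 0 → w ≠ p s := fun w => hA0.mem_toFinset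
  let N : Set V := bdry G A ∩ N0
  let F : Set V := bdry G A \ N0
  have hfar : ∀ t : ℤ, t < b → ∀ w ∈ F, (k : ℕ∞) ≤ G.edist (p t) w := by
    rintro t ht w ⟨⟨hwA, v, hv, hvw⟩, hwN⟩
    by_contra hc
    have hc' : G.edist (p t) w ≤ k := (not_le.1 hc).le
    obtain ⟨⟨t', ht', h1⟩, -⟩ := (hA v).1 hv
    have h2 : G.edist (p t') w ≤ (k + 1 : ℕ) := by
      refine (G.edist_triangle (v := v)).trans ?_
      rw [SimpleGraph.edist_eq_one_iff_adj.2 hvw]
      push_cast
      exact add_le_add h1 le_rfl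
    by_cases h0 : t < 0
    · exact hwN ⟨t, h0, t', ht'.1, hc', h2⟩
    · refine hwA ((hA w).2 ⟨⟨t, ⟨by omega, ht⟩, hc'⟩, fun s hs e => ?_⟩)
      exact hwN ⟨s, hs, t', ht'.1, by simp [e], h2⟩
  have hFfin : F.Finite := (bdry_finite hfin A).subset sdiff_subset
  have := hFfin.fintype
  have hNfin : N.Finite := hN0.subset inter_subset_right
  have := hNfin.fintype
  obtain ⟨y, hy⟩ : ∃ y : F → Fin q, μ.real {x | (fun w : F => x w) = y} ≠ 0 := by
    by_contra hc
    push Not at hc
    have := split_real μ (fun x => fun w : F => x w)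
      (fun y => to_pi (meas_pat (Δ := univ) (subset_univ _) y)) MeasurableSet.univ
    simp [hc] at this
  let Y : Set (V → Fin q) := {x | (fun w : F => x w) = y}
  let L : Fin _ → (N → Fin q) → Set (V → Fin q) := fun j c =>
    ev p (-((u j).length : ℤ)) (u j) ∩ Y ∩ {x | (fun w : N => x w) = c}
  have hLm : ∀ j c, MeasurableSet[cylinderEvents (↑A : Set V)ᶜ] (L j c) := by
    intro j c
    refine MeasurableSet.inter (MeasurableSet.inter (meas_ev p _ _ ?_) (meas_pat ?_ y))
      (meas_pat ?_ c)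
    · intro t _ ht h
      exact ((hA _).1 h).2 t (by omega) rfl
    · intro w hw
      exact hw.1.1
    · intro w hw
      exact hw.1.1
  have hdep : ¬ LinearIndependent ℝ (fun j => fun c => μ.real (L j c)) := by
    intro h
    have h1 := h.fintype_card_le_finrank
    have h2 : Fintype.card N ≤ Fintype.card N0 :=
      Fintype.card_le_of_injective (inclusion inter_subset_right) (inclusion_injective _)
    have h3 := Nat.pow_le_pow_right (Fintype.card_pos (α := Fin q)) h2
    simp only [Module.finrank_fintype_fun_eq_card, Fintype.card_fin, Fintype.card_fun] at h1 h3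
    omega
  obtain ⟨lam, hlam, j0, hj0⟩ := Fintype.not_linearIndependent_iff.1 hdep
  refine ⟨lam, fun e => hj0 (congrFun e j0), fun v hv => ?_⟩
  have hR : ∀ x x' : V → Fin q, (∀ w ∈ A, x w = x' w) → x ∈ ev p 0 v → x' ∈ ev p 0 v := by
    intro x x' h
    refine ev_congr p v x x' 0 (fun t h1 h2 => h _ ((hA _).2 ⟨⟨t, ⟨h1, by omega⟩, by simp⟩, ?_⟩))
    intro s hs e
    have := hinj e
    omega
  choose g hg using fun c : N → Fin q => markov_factor hM A (ev p 0 v) hR
    (fun w => if h : w.1 ∈ N0 then c ⟨w.1, w.2, h⟩ else y ⟨w.1, w.2, h⟩)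
  have key : ∀ j, μ.real (ev p 0 (u j ++ v)) * μ.real Y = ∑ c, g c * μ.real (L j c) := by
    intro j
    have hind := hk {w | ∃ t : ℤ, t < b ∧ w = p t} F
      (by rintro _ ⟨t, ht, rfl⟩ w hw; exact hfar t ht w hw)
    have h1 := (Indep_iff _ _ _).1 hind (ev p (-((u j).length : ℤ)) (u j ++ v)) Y
      (meas_ev p _ _ (fun t _ ht => ⟨t, by
        simp only [List.length_append] at ht; push_cast at ht; omega, rfl⟩))
      (meas_pat subset_rfl y)
    have h2 : μ.real (ev p (-((u j).length : ℤ)) (u j ++ v) ∩ Y) =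
        μ.real (ev p 0 (u j ++ v)) * μ.real Y := by
      rw [← hsh _ (-((u j).length : ℤ)), measureReal_def, h1, ENNReal.toReal_mul]
      rfl
    rw [← h2, split_real μ (fun x => fun w : N => x w)
      (fun c => to_pi (meas_pat (Δ := univ) (subset_univ _) c))
      ((meas_ev' p _ _).inter (to_pi (meas_pat (Δ := univ) (subset_univ _) y)))]
    refine Finset.sum_congr rfl (fun c _ => ?_)
    rw [← hg c (L j c) (hLm j c)]
    · congr 1
      rw [ev_append, neg_add_cancel]
      ext x
      simp only [L, mem_inter_iff]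
      tauto
    · rintro x ⟨⟨-, hx1⟩, hx2⟩
      funext w
      split_ifs with h
      · exact congrFun hx2 ⟨w.1, w.2, h⟩
      · exact congrFun hx1 ⟨w.1, w.2, h⟩
  have hz : (∑ j, lam j * μ.real (ev p 0 (u j ++ v))) * μ.real Y = 0 := by
    rw [Finset.sum_mul]
    simp only [mul_assoc, key, Finset.mul_sum]
    rw [Finset.sum_comm]
    refine Finset.sum_eq_zero (fun c _ => ?_)
    have := congrFun hlam c
    simp only [Finset.sum_apply, Pi.smul_apply, smul_eq_mul, Pi.zero_apply] at this
    calc ∑ j, lam j * (g c * μ.real (L j c)) = g c * ∑ j, lam j * μ.real (L j c) := by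
          rw [Finset.mul_sum]
          exact Finset.sum_congr rfl (fun j _ => by ring)
      _ = 0 := by rw [this, mul_zero]
  exact (mul_eq_zero.1 hz).resolve_right hy

theorem path_main [Countable V] {G : SimpleGraph V} (hfin : ∀ v, (G.neighborSet v).Finite)
    {μ : Measure (V → Fin q)} [IsProbabilityMeasure μ] (hM : Markov G μ) (hF : FinDep G μ)
    (hP : Proper G μ) (p : ℤ → V)
    (hsh : ∀ (w : List (Fin q)) (s : ℤ), μ.real (ev p s w) = μ.real (ev p 0 w))
    (hinj : Function.Injective p) (hadj : ∀ t, G.Adj (p t) (p (t + 1)))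
    (hsep : ∀ R : ℕ, ∃ T : ℕ, ∀ a b : ℤ, a + T ≤ b → (R : ℕ∞) ≤ G.edist (p a) (p b)) :
    False := by
  obtain ⟨k, hk⟩ := hF
  obtain ⟨D, hD⟩ := rank_bound hfin hM p hsh hinj hsep k hk
  obtain ⟨T, hT⟩ := hsep k
  refine trace_obstruction (fun w => μ.real (ev p 0 w)) T D ?_ ?_ ?_ ?_ ?_ hD
  · simp [ev]
  · intro w
    simp only [ev_append]
    rw [sum_first p (meas_ev' p w 0)]
    simp [ev]
  · intro w
    have := sum_first (μ := μ) p MeasurableSet.univ 0 w
    simp only [univ_inter] at this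
    rw [this, hsh]
  · intro u x v
    rw [measureReal_def, ENNReal.toReal_eq_zero_iff]
    left
    refine measure_mono_null ?_ (ae_iff.1 hP)
    intro c hc hcon
    rw [ev_append] at hc
    obtain ⟨-, h1, h2, -⟩ := hc
    exact hcon _ _ (hadj _) (h1.trans h2.symm)
  · intro u
    have h1 : ∀ (j : ℕ) (v : List (Fin q)),
        ((sh (Fin q)) ^ j) (fun v => μ.real (ev p 0 (u ++ v))) v =
          μ.real (ev p 0 u ∩ ev p (u.length + j) v) := by
      intro j
      induction j with
      | zero => intro v; simp [ev_append]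
      | succ j ih =>
        intro v
        rw [pow_succ', Module.End.mul_apply, sh_apply]
        simp only [ih]
        rw [sum_first p (meas_ev' p u 0)]
        congr 3
    intro v
    rw [h1]
    have hind := hk {w | ∃ t : ℤ, t < u.length ∧ w = p t}
      {w | ∃ t : ℤ, u.length + T ≤ t ∧ w = p t} (by
        rintro _ ⟨s, hs, rfl⟩ _ ⟨t, ht, rfl⟩
        exact hT s t (by omega))
    have h2 := (Indep_iff _ _ _).1 hind (ev p 0 u) (ev p (u.length + T) v)
      (meas_ev p _ _ (fun t _ ht => ⟨t, by omega, rfl⟩))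
      (meas_ev p _ _ (fun t ht _ => ⟨t, ht, rfl⟩))
    rw [← hsh v (u.length + T), measureReal_def, h2, ENNReal.toReal_mul]
    rfl

variable {Γ : Type} [Group Γ]

theorem cay_fin (S : Finset Γ) (v : Γ) :
    ((SimpleGraph.mulCayley (S : Set Γ)).neighborSet v).Finite := by
  refine ((S.finite_toSet.image fun g => v * g).union
    (S.finite_toSet.image fun g => v * g⁻¹)).subset fun w hw => ?_
  obtain ⟨-, g, hg, h | h⟩ := (SimpleGraph.mulCayley_adj' _ _ _).1 hw
  · exact Or.inl ⟨g, hg, h⟩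
  · exact Or.inr ⟨g, hg, by simp [h]⟩

theorem cay_left (S : Set Γ) (t u v : Γ) :
    (SimpleGraph.mulCayley S).edist (t * u) (t * v) ≤ (SimpleGraph.mulCayley S).edist u v := by
  let f : SimpleGraph.mulCayley S →g SimpleGraph.mulCayley S :=
    ⟨fun g => t * g, fun {a b} h => by
      obtain ⟨h0, g, hg, h1⟩ := (SimpleGraph.mulCayley_adj' _ _ _).1 h
      refine (SimpleGraph.mulCayley_adj' _ _ _).2 ⟨fun e => h0 (mul_left_cancel e), g, hg, ?_⟩
      simpa only [mul_assoc, mul_right_inj] using h1⟩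
  by_cases h : (SimpleGraph.mulCayley S).edist u v = ⊤
  · simp [h]
  · obtain ⟨c, hc⟩ := SimpleGraph.exists_walk_of_edist_ne_top h
    have := SimpleGraph.edist_le (c.map f)
    rwa [SimpleGraph.Walk.length_map, hc] at this

theorem neg_main [Countable Γ] (S : Finset Γ) {μ : Measure (Γ → Fin q)} [IsProbabilityMeasure μ]
    (hI : Invariant μ) (hF : FinDep (SimpleGraph.mulCayley (S : Set Γ)) μ)
    (hM : Markov (SimpleGraph.mulCayley (S : Set Γ)) μ)
    (hP : Proper (SimpleGraph.mulCayley (S : Set Γ)) μ) {s : Γ} (hs : s ∈ S) : IsOfFinOrder s := by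
  by_contra hord
  have hinj : Function.Injective fun t : ℤ => s ^ t := injective_zpow_iff_not_isOfFinOrder.2 hord
  refine path_main (cay_fin S) hM hF hP (fun t => s ^ t) (fun w t => ?_) hinj (fun t => ?_)
    fun R => ?_
  · have hm : Measurable (fun (x : Γ → Fin q) (g : Γ) => x (s ^ t * g)) :=
      measurable_pi_lambda _ (fun g => measurable_pi_apply _)
    have := ev_shift (fun t : ℤ => s ^ t) (fun g => s ^ t * g) t
      (fun a => by rw [← zpow_add, add_comm]) w 0
    rw [zero_add] at this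
    rw [← this, measureReal_def, measureReal_def, ← Measure.map_apply hm (meas_ev' _ w 0), hI]
  · refine (SimpleGraph.mulCayley_adj' _ _ _).2 ⟨fun e => ?_, s, hs, Or.inl ?_⟩
    · have := hinj e
      omega
    · rw [zpow_add_one]
  · have h1 := (ball_finite (cay_fin S) R 1).preimage hinj.injOn
    obtain ⟨B, hB⟩ := h1.bddAbove
    refine ⟨B.toNat + 1, fun a b hab => ?_⟩
    by_contra hc
    have h2 := (cay_left (S : Set Γ) (s ^ (-a)) _ _).trans (not_le.1 hc).le
    rw [← zpow_add, ← zpow_add, neg_add_cancel, zpow_zero] at h2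
    have h3 : -a + b ≤ B := hB h2
    omega

end Pool.Agent.FS.CayleyMRF
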