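import Pool.Agent.FS.CayleyMRF.Basic

set_option autoImplicit false

/-! Independent uniform phases on the cosets of the cyclic subgroups of torsion generators. -/

namespace Pool.Agent.FS.CayleyMRF

open MeasureTheory ProbabilityTheory Set

variable {Γ : Type} [Group Γ]

theorem exists_clock {N : ℕ} (hN : 0 < N) (s : Γ) (hs : orderOf s ∣ N) :
    ∃ (j : Γ → ZMod N) (c : ZMod N), (∀ g (n : ℤ), j (g * s ^ n) = j g + n * c) ∧
      (c = 0 → s = 1) := by
  obtain ⟨m, rfl⟩ := hs
  have h1 : ∀ g : Γ, ∃ e : ℤ,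
      s ^ e = (Quotient.out (QuotientGroup.mk g : Γ ⧸ Subgroup.zpowers s))⁻¹ * g := fun g =>
    Subgroup.mem_zpowers_iff.1 (QuotientGroup.eq.1 (QuotientGroup.out_eq' _))
  choose e he using h1
  refine ⟨fun g => ((m * e g : ℤ) : ZMod _), (m : ZMod _), fun g n => ?_, fun h => ?_⟩
  · have h2 : s ^ e (g * s ^ n) = s ^ (e g + n) := by
      rw [he, zpow_add, he, QuotientGroup.mk_mul_of_mem g (Subgroup.zpow_mem_zpowers s n),
        mul_assoc]
    have h3 := (zpow_eq_zpow_iff_modEq.1 h2).mul_left' (c := m)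
    rw [mul_comm (m : ℤ) (orderOf s : ℤ), ← Nat.cast_mul, ← ZMod.intCast_eq_intCast_iff] at h3
    beta_reduce
    rw [h3]
    push_cast
    ring
  · have h2 := Nat.le_of_dvd (Nat.pos_of_mul_pos_left hN) ((ZMod.natCast_eq_zero_iff _ _).1 h)
    have h3 := Nat.pos_of_mul_pos_left hN
    have h4 := Nat.pos_of_mul_pos_right hN
    exact orderOf_eq_one_iff.1 (by nlinarith)

variable (S : Finset Γ)

/-- The coset of the cyclic group of a generator through a vertex. -/
def cos (a : S × Γ) : S × Set Γ := (a.1, {h | a.2⁻¹ * h ∈ Subgroup.zpowers a.1.1})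

variable {S}

theorem cos_eq {a b : S × Γ} :
    cos S a = cos S b ↔ a.1 = b.1 ∧ ∃ n : ℤ, b.2 = a.2 * a.1.1 ^ n := by
  obtain ⟨s, g⟩ := a
  obtain ⟨s', h⟩ := b
  simp only [cos, Prod.mk.injEq]
  refine and_congr_right fun e => ?_
  subst e
  constructor
  · intro e
    have h1 : h ∈ {x | h⁻¹ * x ∈ Subgroup.zpowers s.1} := by simp
    rw [← e] at h1
    obtain ⟨n, hn⟩ := Subgroup.mem_zpowers_iff.1 h1
    exact ⟨n, by rw [hn, mul_inv_cancel_left]⟩
  · rintro ⟨n, rfl⟩
    ext x
    simp only [mem_ofPred_eq, mul_inv_rev, mul_assoc]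
    exact (Subgroup.mul_mem_cancel_left _
      (Subgroup.inv_mem _ (Subgroup.zpow_mem_zpowers s.1 n))).symm

theorem cos_nat (hS : ∀ s ∈ S, IsOfFinOrder s) {a b : S × Γ} (h : cos S a = cos S b) :
    ∃ n : ℕ, n < orderOf a.1.1 ∧ b.2 = a.2 * a.1.1 ^ n := by
  classical
  obtain ⟨-, n, hn⟩ := cos_eq.1 h
  obtain ⟨m, hm, e⟩ := Finset.mem_image.1 ((hS _ a.1.2).mem_zpowers_iff_mem_range_orderOf.1
    (Subgroup.zpow_mem_zpowers a.1.1 n))
  exact ⟨m, Finset.mem_range.1 hm, by rw [hn, e]⟩

theorem step_adj (s : S) {u : Γ} (h : u ≠ u * s) :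
    (SimpleGraph.mulCayley (S : Set Γ)).Adj u (u * s) :=
  (SimpleGraph.mulCayley_adj' _ _ _).2 ⟨h, s, s.2, Or.inl rfl⟩

theorem edist_pow (s : S) (u : Γ) (n : ℕ) :
    (SimpleGraph.mulCayley (S : Set Γ)).edist u (u * s.1 ^ n) ≤ n := by
  induction n with
  | zero => simp
  | succ n ih =>
    refine (SimpleGraph.edist_triangle (v := u * s.1 ^ n)).trans ?_
    push_cast
    refine add_le_add ih (SimpleGraph.edist_le_one_iff_adj_or_eq.2 ?_)
    rw [pow_succ, ← mul_assoc]
    by_cases h : u * s.1 ^ n = u * s.1 ^ n * s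
    · exact Or.inr h
    · exact Or.inl (step_adj s h)

theorem exit_bdry (A : Finset Γ) (s : S) {u : Γ} (hu : u ∈ A) (n : ℕ) (h : u * s.1 ^ n ∉ A) :
    ∃ w ∈ bdry (SimpleGraph.mulCayley (S : Set Γ)) A, cos S (s, u) = cos S (s, w) := by
  induction n with
  | zero => exact absurd hu (by simpa using h)
  | succ n ih =>
    by_cases h1 : u * s.1 ^ n ∈ A
    · refine ⟨_, ⟨h, _, h1, ?_⟩, cos_eq.2 ⟨rfl, (n + 1 : ℕ), by rw [zpow_natCast]⟩⟩
      rw [pow_succ, ← mul_assoc] at h ⊢
      exact step_adj s fun e => h (e ▸ h1)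
    · exact ih h1

variable (S) (N : ℕ) [NeZero N]

/-- Independent uniform phases. -/
noncomputable def phase : Measure (S × Set Γ → ZMod N) :=
  Measure.infinitePi fun _ => uniformOn univ

omit [Group Γ] in
theorem phase_prob : IsProbabilityMeasure (phase S N) := by
  unfold phase
  infer_instance

variable {S N}

omit [Group Γ] in
theorem phase_inv {τ : S × Set Γ → S × Set Γ} (hτ : Function.Injective τ)
    (κ : S × Set Γ → ZMod N) :
    (phase S N).map (fun ψ i => ψ (τ i) + κ i) = phase S N := by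
  have h1 : ∀ c : ZMod N, (uniformOn univ : Measure (ZMod N)).map (· + c) = uniformOn univ := by
    intro c
    ext s hs
    rw [Measure.map_apply (measurable_of_countable _) hs, uniformOn_univ, uniformOn_univ,
      measure_preimage_add_right]
  have h2 := Measure.map_infinitePi_infinitePi_of_inj
    (P := fun _ : S × Set Γ => (uniformOn univ : Measure (ZMod N))) hτ
  have h3 := Measure.infinitePi_map_pi (fun _ : S × Set Γ => (uniformOn univ : Measure (ZMod N)))
    (f := fun s c => c + κ s) fun _ => measurable_of_countable _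
  simp only [h1] at h3
  unfold phase
  conv_rhs => rw [← h3, ← h2]
  rw [Measure.map_map (by fun_prop) (by fun_prop)]
  rfl

variable (j : S → Γ → ZMod N)

/-- The clocks seen from a vertex. -/
def raw (ψ : S × Set Γ → ZMod N) (u : Γ) : S → ZMod N := fun s => ψ (cos S (s, u)) + j s u

open scoped Classical

/-- The field. -/
noncomputable def fld (ψ : S × Set Γ → ZMod N) (u : Γ) : Fin (Fintype.card (S → ZMod N)) :=
  Fintype.equivFin _ (raw j ψ u)

theorem fld_meas (A : Set Γ) :
    @Measurable _ _ (cylinderEvents {i | ∃ u ∈ A, ∃ s, i = cos S (s, u)})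
      (cylinderEvents A) (fld j) := by
  refine (@measurable_cylinderEvents_iff _ _ _ (cylinderEvents _) _ _ _).2 fun u hu => ?_
  refine (measurable_of_countable (Fintype.equivFin _)).comp
    ((@measurable_pi_iff _ _ _ (cylinderEvents _) _ _).2 fun s => ?_)
  have h1 := measurable_cylinderEvent_apply (X := fun _ => ZMod N)
    (Δ := {i | ∃ u ∈ A, ∃ s, i = cos S (s, u)}) ⟨u, hu, s, rfl⟩
  exact (measurable_of_countable fun p : ZMod N => p + j s u).comp h1

theorem fld_meas' : Measurable (fld j) := by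
  have h := (fld_meas j univ).mono cylinderEvents_le_pi le_rfl
  rwa [cylinderEvents_univ] at h

theorem law_prob : IsProbabilityMeasure ((phase S N).map (fld j)) :=
  have := phase_prob S N
  Measure.isProbabilityMeasure_map (fld_meas' j).aemeasurable

theorem law_inv {c : S → ZMod N} (hj : ∀ s g (n : ℤ), j s (g * s.1 ^ n) = j s g + n * c s) :
    Invariant ((phase S N).map (fld j)) := by
  intro t
  have h := fld_meas' j
  have h1 : Function.FactorsThrough (fun a : S × Γ => j a.1 (t * a.2) - j a.1 a.2) (cos S) := by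
    rintro ⟨s, g⟩ ⟨s', g'⟩ e
    obtain ⟨rfl, n, rfl⟩ := cos_eq.1 e
    simp only [← mul_assoc, hj]
    ring
  obtain ⟨κ, hκ⟩ := (Function.factorsThrough_iff _).1 h1
  have hτ : Function.Injective
      fun i : S × Set Γ => ((i.1, (fun g => t⁻¹ * g) ⁻¹' i.2) : S × Set Γ) := by
    rintro ⟨s, C⟩ ⟨s', C'⟩ e
    simp only [Prod.mk.injEq] at e ⊢
    exact ⟨e.1, preimage_injective.2 (mul_left_surjective _) e.2⟩
  conv_rhs => rw [← phase_inv hτ κ]
  rw [Measure.map_map (by fun_prop) h, Measure.map_map h (by fun_prop)]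
  congr 1
  funext ψ u
  show Fintype.equivFin _ _ = Fintype.equivFin _ _
  congr 1
  funext s
  have h2 : j s (t * u) - j s u = κ (cos S (s, u)) := congrFun hκ (s, u)
  have h3 : cos S (s, t * u) = ((cos S (s, u)).1, (fun g => t⁻¹ * g) ⁻¹' (cos S (s, u)).2) := by
    simp [cos, mul_assoc]
  simp only [raw, ← h2, h3]
  ring

theorem law_dep (hS : ∀ s ∈ S, IsOfFinOrder s) :
    FinDep (SimpleGraph.mulCayley (S : Set Γ)) ((phase S N).map (fld j)) := by
  refine ⟨∑ s ∈ S, orderOf s, fun A B hAB => (Indep_iff _ _ _).2 fun U T hU hT => ?_⟩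
  have h := fld_meas' j
  have h1 := indep_iSup_of_disjoint (fun u => (measurable_pi_apply u).comap_le)
    (iIndepFun_infinitePi (P := fun _ : S × Set Γ => (uniformOn univ : Measure (ZMod N)))
      (X := fun _ c => c) fun _ => measurable_id).iIndep
    (S := {i | ∃ u ∈ A, ∃ s, i = cos S (s, u)})
    (T := {i | ∃ u ∈ B, ∃ s, i = cos S (s, u)}) (disjoint_left.2 (by
      rintro _ ⟨u, hu, s, rfl⟩ ⟨u', hu', s', e⟩
      obtain ⟨n, hn, e'⟩ := cos_nat hS e
      have h2 := hAB u hu u' hu'
      simp only at e' hn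
      rw [e'] at h2
      have h3 := Nat.cast_le.1 (h2.trans (edist_pow s u n))
      have h4 := Finset.single_le_sum (f := fun s : Γ => orderOf s) (fun _ _ => Nat.zero_le _) s.2
      omega))
  rw [Measure.map_apply h ((to_pi hU).inter (to_pi hT)), Measure.map_apply h (to_pi hU),
    Measure.map_apply h (to_pi hT), preimage_inter]
  exact (Indep_iff _ _ _).1 h1 _ _ (fld_meas j A hU) (fld_meas j B hT)

theorem law_proper [Countable Γ] {c : S → ZMod N}
    (hj : ∀ s g (n : ℤ), j s (g * s.1 ^ n) = j s g + n * c s) (hc : ∀ s, c s = 0 → s.1 = 1) :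
    Proper (SimpleGraph.mulCayley (S : Set Γ)) ((phase S N).map (fld j)) := by
  have key : ∀ ψ u (s : S), fld j ψ u = fld j ψ (u * s) → u = u * s := by
    intro ψ u s e
    have h1 := congrFun ((Fintype.equivFin _).injective e) s
    have h2 : cos S (s, u) = cos S (s, u * s) := cos_eq.2 ⟨rfl, 1, by simp⟩
    have h3 := hj s u 1
    simp only [zpow_one, Int.cast_one, one_mul] at h3
    simp only [raw, ← h2, h3] at h1
    rw [hc s (by linear_combination -h1), mul_one]
  refine ae_all_iff.2 fun u => ae_all_iff.2 fun v => ?_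
  by_cases h : (SimpleGraph.mulCayley (S : Set Γ)).Adj u v
  · simp only [h, true_imp_iff]
    refine (ae_map_iff (fld_meas' j).aemeasurable
      (measurableSet_eq_fun (measurable_pi_apply u) (measurable_pi_apply v)).compl).2
      (ae_of_all _ fun ψ e => ?_)
    obtain ⟨h0, g, hg, rfl | rfl⟩ := (SimpleGraph.mulCayley_adj' _ _ _).1 h
    · exact h0 (key ψ u ⟨g, hg⟩ e)
    · exact h0 (key ψ v ⟨g, hg⟩ (Eq.symm e)).symm
  · exact ae_of_all _ fun _ h' => absurd h' h

theorem law_markov [Countable Γ] (hS : ∀ s ∈ S, IsOfFinOrder s)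
    (hfin : ∀ v, ((SimpleGraph.mulCayley (S : Set Γ)).neighborSet v).Finite) :
    Markov (SimpleGraph.mulCayley (S : Set Γ)) ((phase S N).map (fld j)) := by
  have hf := fld_meas' j
  have := law_prob j
  have := phase_prob S N
  intro A a
  have := (bdry_finite hfin A).to_subtype
  let X : (S × Set Γ → ZMod N) → A → S → ZMod N := fun ψ u => raw j ψ u
  let K : AddSubgroup (A → S → ZMod N) :=
    { carrier := {h | ∃ κ : S × Set Γ → ZMod N, (∀ u ∉ A, ∀ s, κ (cos S (s, u)) = 0) ∧
          h = fun (u : A) (s : S) => κ (cos S (s, u.1))}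
      zero_mem' := ⟨0, fun _ _ _ => rfl, rfl⟩
      add_mem' := by
        rintro _ _ ⟨κ, h1, rfl⟩ ⟨κ', h2, rfl⟩
        exact ⟨κ + κ', fun u hu s => by simp only [Pi.add_apply, h1 u hu s, h2 u hu s, add_zero],
          rfl⟩
      neg_mem' := by
        rintro _ ⟨κ, h1, rfl⟩
        exact ⟨-κ, fun u hu s => by simp only [Pi.neg_apply, h1 u hu s, neg_zero], rfl⟩ }
  let a' : A → S → ZMod N := fun u => (Fintype.equivFin _).symm (a u)
  let B := {b : bdry (SimpleGraph.mulCayley (S : Set Γ)) A → Fin _ |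
    ∃ ψ, (fun w : bdry (SimpleGraph.mulCayley (S : Set Γ)) A => fld j ψ w) = b ∧ X ψ - a' ∈ K}
  let E := {x : Γ → Fin _ | (fun w : bdry (SimpleGraph.mulCayley (S : Set Γ)) A => x w) ∈ B}
  have hE : MeasurableSet[cylinderEvents (↑A : Set Γ)ᶜ] E := by
    have h1 : E = ⋃ b ∈ B,
        {x | (fun w : bdry (SimpleGraph.mulCayley (S : Set Γ)) A => x w) = b} := by
      ext x
      simp [E]
    rw [h1]
    exact MeasurableSet.biUnion (to_countable _) fun b _ => meas_pat (fun w hw => hw.1) b
  have hE' : ∀ ψ, fld j ψ ∈ E ↔ X ψ - a' ∈ K := by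
    refine fun ψ => ⟨?_, fun h => ⟨ψ, rfl, h⟩⟩
    rintro ⟨ψ', h1, h2⟩
    have h5 : X ψ - X ψ' ∈ K := by
      refine ⟨fun i => if ∃ u ∉ A, ∃ s, i = cos S (s, u) then 0 else ψ i - ψ' i,
        fun u hu s => if_pos ⟨u, hu, s, rfl⟩, ?_⟩
      funext u s
      simp only [X, raw, Pi.sub_apply, add_sub_add_right_eq_sub]
      split_ifs with h
      · obtain ⟨u', hu', s', e⟩ := h
        obtain ⟨n, -, e'⟩ := cos_nat hS e
        simp only at e'
        obtain ⟨w, hw, e2⟩ := exit_bdry A s u.2 n (e' ▸ hu')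
        have h6 := congrFun ((Fintype.equivFin _).injective (congrFun h1 ⟨w, hw⟩)) s
        simp only [raw] at h6
        rw [e2]
        linear_combination -h6
      · rfl
    simpa using add_mem h5 h2
  have hX : ∀ c, MeasurableSet {ψ | X ψ = c} := fun c => by
    have h1 : {ψ | X ψ = c} = fld j ⁻¹' {x | (fun u : (↑A : Set Γ) => x u) =
          fun u => Fintype.equivFin _ (c u)} := by
      ext ψ
      exact ⟨fun h => funext fun u => congrArg (Fintype.equivFin _) (congrFun h u),
        fun h => funext fun u => (Fintype.equivFin _).injective (congrFun h u)⟩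
    rw [h1]
    exact hf (to_pi (meas_pat subset_rfl _))
  have hm : MeasurableSet {x : Γ → Fin _ | ∀ v : A, x v = a v} := by
    rw [ofPred_forall]
    exact MeasurableSet.iInter fun v => to_pi (meas_coord (Δ := univ) (mem_univ _) _)
  have hc : (0 : ℝ) < Nat.card K := by exact_mod_cast Nat.card_pos
  refine ⟨B.indicator fun _ => (Nat.card K : ℝ)⁻¹, (ae_eq_condExp_of_forall_setIntegral_eq
    (g := E.indicator fun _ => (Nat.card K : ℝ)⁻¹) (cylinderEvents_le_pi (X := fun _ => Fin _))
    ((integrable_const (1 : ℝ)).indicator hm)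
    (fun s _ _ => ((integrable_const _).indicator (to_pi hE)).integrableOn) (fun U hU _ => ?_)
    (stronglyMeasurable_const.indicator hE).aestronglyMeasurable).symm⟩
  have hU' := to_pi hU
  have h1 : ∀ h : K, (phase S N).real (fld j ⁻¹' U ∩ {ψ | X ψ = a' + h}) =
      (phase S N).real (fld j ⁻¹' U ∩ {ψ | X ψ = a'}) := by
    rintro ⟨_, κ, h1, rfl⟩
    conv_lhs => rw [← phase_inv Function.injective_id κ]
    rw [map_measureReal_apply (by fun_prop) ((hf hU').inter (hX _))]
    congr 1
    ext ψ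
    refine and_congr (cyl_congr hU fun u hu => ?_) ?_
    · show Fintype.equivFin _ _ = Fintype.equivFin _ _
      congr 1
      funext s
      simp only [raw, id, h1 u hu s, add_zero]
    · rw [mem_ofPred_eq, mem_ofPred_eq, ← add_left_inj (b := X ψ)]
      refine Eq.congr_left ?_
      funext u s
      simp only [X, raw, id, Pi.add_apply]
      ring
  have h2 : fld j ⁻¹' (U ∩ E) = ⋃ h : K, fld j ⁻¹' U ∩ {ψ | X ψ = a' + h} := by
    ext ψ
    simp only [preimage_inter, mem_inter_iff, mem_iUnion, mem_preimage, hE', mem_ofPred_eq,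
      exists_and_left]
    refine and_congr_right fun _ => ⟨fun h => ⟨⟨_, h⟩, by simp⟩, ?_⟩
    rintro ⟨h, e⟩
    rw [e, add_sub_cancel_left]
    exact h.2
  have h3 : fld j ⁻¹' (U ∩ {x | ∀ v : A, x v = a v}) = fld j ⁻¹' U ∩ {ψ | X ψ = a'} := by
    ext ψ
    simp only [preimage_inter, mem_inter_iff, mem_preimage, mem_ofPred_eq, funext_iff (f := X ψ),
      fld, a', Equiv.eq_symm_apply, X]
  have := Fintype.ofFinite K
  rw [setIntegral_indicator (to_pi hE), setIntegral_indicator hm, setIntegral_const,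
    setIntegral_const, map_measureReal_apply hf (hU'.inter (to_pi hE)),
    map_measureReal_apply hf (hU'.inter hm), h2, h3, measureReal_iUnion_fintype
      (fun h h' hne => disjoint_left.2 fun ψ e e' =>
        hne (Subtype.ext (add_left_cancel (e.2.symm.trans e'.2))))
      fun h => (hf hU').inter (hX _)]
  simp only [h1, Finset.sum_const, Finset.card_univ, nsmul_eq_mul, smul_eq_mul,
    ← Nat.card_eq_fintype_card]
  field_simp

theorem pos_main [Countable Γ] (hS : ∀ s ∈ S, IsOfFinOrder s)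
    (hfin : ∀ v, ((SimpleGraph.mulCayley (S : Set Γ)).neighborSet v).Finite) :
    ∃ (q : ℕ) (μ : Measure (Γ → Fin q)), IsProbabilityMeasure μ ∧ Invariant μ ∧
      FinDep (SimpleGraph.mulCayley (S : Set Γ)) μ ∧
      Markov (SimpleGraph.mulCayley (S : Set Γ)) μ ∧
      Proper (SimpleGraph.mulCayley (S : Set Γ)) μ := by
  have hN : 0 < ∏ s ∈ S, orderOf s := Finset.prod_pos fun s hs => (hS s hs).orderOf_pos
  have : NeZero (∏ s ∈ S, orderOf s) := ⟨hN.ne'⟩
  choose j c hj hc using fun s : S => exists_clock hN s.1 (Finset.dvd_prod_of_mem _ s.2)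
  exact ⟨_, _, law_prob j, law_inv j hj, law_dep j hS, law_markov j hS hfin, law_proper j hj hc⟩

end Pool.Agent.FS.CayleyMRF
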